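import Pool.Agent.Helper275.Pent.Fin
import Pool.Agent.Helper275.Pent.Chk

set_option autoImplicit false

/-!
# Immersed spheres tiled by congruent regular pentagons

Every closed polyhedral surface made of copies of the regular pentagon that is homeomorphic to the
two-sphere and is immersed in space, isometrically on each face, is the boundary of a union of
solid regular dodecahedra glued at common facets.

The definitions are in `Pool/Agent/Helper275/Pent/Defs.lean`. The first three theorems below only
check that the model pentagon and the model dodecahedron of those definitions are what they should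
be: `pv` lists the vertices of a regular pentagon of edge length one, each facet listed by `fv` is
a regular pentagon of edge length one, and its vertices are exactly the vertices of the model
dodecahedron in a supporting plane.
-/

namespace Pool.Agent.Results.MP_59160a_co.Dodecahedra

open Pool.Agent.Helper275.Pent
open scoped Topology

theorem check_pentagon (i : ZMod 5) :
    dist (pv i) (pv (i + 1)) = 1 ∧ dist (pv i) (pv (i + 2)) = Real.goldenRatio :=
  ⟨pv_dist_one i, pv_dist_two i⟩

theorem check_facet (q : Fin 12) (j : Fin 5) :
    dist (dv (fv q j)) (dv (fv q (j + 1))) = 1 ∧
      dist (dv (fv q j)) (dv (fv q (j + 2))) = Real.goldenRatio :=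
  facet_regular q j

theorem check_support (q : Fin 12) : ∃ (n : E3) (c : ℝ), ∀ a,
    inner ℝ n (dv a) ≤ c ∧ (inner ℝ n (dv a) = c ↔ ∃ j, fv q j = a) :=
  facet_support q

/-- Let `M` be a closed polyhedral surface made of finitely many copies of the regular pentagon,
homeomorphic to the two-sphere, and let `f : M → ℝ³` be continuous, isometric on each face and
locally injective. Then `M` with `f` is the boundary of a union of solid regular dodecahedra glued
at common facets (and dodecahedra glued along a facet lie on opposite sides of it). -/
theorem result (M : Surf) (hS : Nonempty (M.Space ≃ₜ Metric.sphere (0 : E3) 1))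
    (f : M.Space → E3) (hf : Continuous f)
    (hiso : ∀ x, Isometry fun t : P => f (M.pt x t))
    (hinj : ∀ z, ∃ U ∈ 𝓝 z, Set.InjOn f U) :
    ∃ (B : Solid) (F : B.Space → E3), Continuous F ∧
      (∀ i, Isometry fun t : Dod => F (B.pt i t)) ∧ B.Proper F ∧ IsBoundary M f B F :=
  main M hS f hf hiso hinj

end Pool.Agent.Results.MP_59160a_co.Dodecahedra
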